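import Mathlib

set_option autoImplicit false

/-!
# Optimal windows: the upper bound sieve, corrected statement

`Pool.Agent.N176.OW.S_SV` has the same constant in the hypotheses and in the conclusion, which makes
it false (`k = 1`, `y = 2`, `I l = {0}`, `A = Icc 1 N` with `2 ^ C < N < 3 ^ C`).  Here the constant
`D` of the conclusion depends on the constant `C` of the hypotheses.
-/

namespace Pool.Agent.N136.OW

open Finset

/-- TASK SV (corrected): an upper bound sieve of dimension `k`, uniformly in `k`. -/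
def S_SV2 : Prop := ∃ C0 : ℝ, 1 ≤ C0 ∧ ∀ C : ℝ, C0 ≤ C → ∃ D : ℝ, 1 ≤ D ∧
  ∀ (k N y : ℕ) (E : ℝ) (I : ℕ → Finset ℕ) (A : Finset ℕ),
  1 ≤ k → 2 ≤ y → k ^ 2 ≤ y → C * k * Real.log y ≤ Real.log N → A ⊆ Icc 1 N →
  (∀ l : ℕ, l.Prime → y < l → I l ⊆ range l ∧ (I l).card ≤ k) →
  (∀ n ∈ A, ∀ l : ℕ, l.Prime → y < l → C * k * Real.log l ≤ Real.log N → n % l ∉ I l) →
  ∑ l ∈ (Ioc y N).filter Nat.Prime, ((k : ℝ) - (I l).card) / l ≤ E →
  (A.card : ℝ) ≤ D ^ k * Real.exp E * (k * Real.log y / Real.log N) ^ k * N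

end Pool.Agent.N136.OW
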