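import Mathlib
import Pool.Agent.H174R3.D6.TaskLS
import Pool.Agent.Helper601.Mertens
import Pool.Agent.N176.OW.Stm2
import Pool.Agent.N136.OW.SVStm

set_option autoImplicit false

/-!
# Optimal windows: the upper bound sieve, uniformly in the dimension
-/

namespace Pool.Agent.N136.OW

open Finset
open Pool.Agent.N176.OW (S_SG)

/-- Mertens in the form needed, all `N ≥ 2` -/
lemma mert2 : ∃ C : ℝ, 0 ≤ C ∧ ∀ N : ℕ, 2 ≤ N →
    |∑ p ∈ (Finset.Icc 1 N).filter Nat.Prime, (1 : ℝ) / p - Real.log (Real.log N)| ≤ C := by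
  obtain ⟨C, hC⟩ := Pool.Agent.Helper601.Mertens.mertens_inv
  refine ⟨max C |∑ p ∈ (Finset.Icc 1 2).filter Nat.Prime, (1 : ℝ) / p - Real.log (Real.log (2 : ℕ))|,
    le_max_of_le_right (abs_nonneg _), ?_⟩
  intro N hN
  rcases eq_or_lt_of_le hN with h | h
  · subst h; exact le_max_right _ _
  · exact (hC N h).trans (le_max_left _ _)

/-- Mertens on an interval -/
lemma mert_int : ∃ C : ℝ, 0 ≤ C ∧ ∀ y w : ℕ, 2 ≤ y → y ≤ w →
    Real.log (Real.log w) - Real.log (Real.log y) - C ≤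
      ∑ p ∈ (Finset.Ioc y w).filter Nat.Prime, (1 : ℝ) / p := by
  obtain ⟨C, hC0, hC⟩ := mert2
  refine ⟨2 * C, by linarith, ?_⟩
  intro y w hy hyw
  have h1 := abs_le.1 (hC y hy)
  have h2 := abs_le.1 (hC w (hy.trans hyw))
  have h3 : ∑ p ∈ (Finset.Icc 1 w).filter Nat.Prime, (1 : ℝ) / p =
      ∑ p ∈ (Finset.Icc 1 y).filter Nat.Prime, (1 : ℝ) / p +
      ∑ p ∈ (Finset.Ioc y w).filter Nat.Prime, (1 : ℝ) / p := by
    rw [← Finset.sum_union]
    · congr 1
      ext p
      simp only [Finset.mem_filter, Finset.mem_Icc, Finset.mem_union, Finset.mem_Ioc]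
      constructor
      · rintro ⟨⟨h4, h5⟩, h6⟩
        by_cases h7 : p ≤ y
        · exact Or.inl ⟨⟨h4, h7⟩, h6⟩
        · exact Or.inr ⟨⟨by omega, h5⟩, h6⟩
      · rintro (⟨⟨h4, h5⟩, h6⟩ | ⟨⟨h4, h5⟩, h6⟩)
        · exact ⟨⟨h4, h5.trans hyw⟩, h6⟩
        · exact ⟨⟨by omega, h5⟩, h6⟩
    · rw [Finset.disjoint_left]
      intro p h4 h5
      simp only [Finset.mem_filter, Finset.mem_Icc, Finset.mem_Ioc] at h4 h5
      omega
  linarith [h1.1, h1.2, h2.1, h2.2]

/-- large sieve bound -/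
lemma sieve (N Q : ℕ) (P : Finset ℕ) (I : ℕ → Finset ℕ) (A : Finset ℕ)
    (hP : ∀ q ∈ P, q.Prime) (hI : ∀ q ∈ P, I q ⊆ range q) (hQ1 : 1 ≤ Q) (hQ : Q ^ 2 ≤ N)
    (hA : A ⊆ Icc 1 N) (hA2 : ∀ n ∈ A, ∀ q ∈ P, n % q ∉ I q) :
    (A.card : ℝ) * ∑ s ∈ P.powerset.filter (fun s => ∏ l ∈ s, l ≤ Q), ∏ l ∈ s, ((I l).card : ℝ) / l
      ≤ 12 * N := by
  set S := P.powerset.filter (fun s => ∏ l ∈ s, l ≤ Q) with hS
  set G := ∑ s ∈ S, ∏ l ∈ s, ((I l).card : ℝ) / l with hG
  have h1 := Pool.Agent.H174R3.D6LS.taskLS N Q P I S (fun s => (-1) ^ s.card) hP hI (by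
    intro s hs
    rw [hS, Finset.mem_filter, Finset.mem_powerset] at hs
    exact hs)
  have h2 : ∑ s ∈ S, ((-1 : ℝ) ^ s.card) ^ 2 * ∏ q ∈ s, ((I q).card : ℝ) / q = G := by
    rw [hG]
    apply Finset.sum_congr rfl
    intro s _
    have h0 : ((-1 : ℝ) ^ s.card) ^ 2 = 1 := by
      rw [← pow_mul, mul_comm s.card 2, pow_mul]; norm_num
    rw [h0, one_mul]
  have h3 : (A.card : ℝ) * G ^ 2 ≤ ∑ n ∈ Icc 1 N, (∑ s ∈ S, (-1 : ℝ) ^ s.card *
      ∏ q ∈ s, ((if n % q ∈ I q then (1 : ℝ) else 0) - ((I q).card : ℝ) / q)) ^ 2 := by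
    calc (A.card : ℝ) * G ^ 2 = ∑ n ∈ A, G ^ 2 := by rw [Finset.sum_const, nsmul_eq_mul]
      _ = ∑ n ∈ A, (∑ s ∈ S, (-1 : ℝ) ^ s.card *
      ∏ q ∈ s, ((if n % q ∈ I q then (1 : ℝ) else 0) - ((I q).card : ℝ) / q)) ^ 2 := by
          apply Finset.sum_congr rfl
          intro n hn
          congr 1
          rw [hG]
          apply Finset.sum_congr rfl
          intro s hs
          rw [hS, Finset.mem_filter, Finset.mem_powerset] at hs
          have h4 : ∏ q ∈ s, ((if n % q ∈ I q then (1 : ℝ) else 0) - ((I q).card : ℝ) / q) =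
              ∏ q ∈ s, ((-1) * (((I q).card : ℝ) / q)) := by
            apply Finset.prod_congr rfl
            intro q hq
            rw [if_neg (hA2 n hn q (hs.1 hq))]
            ring
          rw [h4, Finset.prod_mul_distrib, Finset.prod_const, ← mul_assoc, ← mul_pow]
          simp
      _ ≤ _ := Finset.sum_le_sum_of_subset_of_nonneg hA (fun _ _ _ => sq_nonneg _)
  rw [h2] at h1
  have hG1 : 1 ≤ G := by
    have h5 : (∅ : Finset ℕ) ∈ S := by
      rw [hS, Finset.mem_filter]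
      simp [hQ1]
    have h6 := Finset.single_le_sum (f := fun s : Finset ℕ => ∏ l ∈ s, ((I l).card : ℝ) / l)
      (fun s _ => Finset.prod_nonneg (fun l _ => by positivity)) h5
    simpa [hG] using h6
  have h7 : (Q : ℝ) ^ 2 ≤ N := by exact_mod_cast hQ
  have h8 : (A.card : ℝ) * G ^ 2 ≤ 12 * N * G := by
    refine h3.trans (h1.trans ?_)
    have : 6 * ((N : ℝ) + (Q : ℝ) ^ 2) ≤ 12 * N := by linarith
    exact mul_le_mul_of_nonneg_right this (by linarith)
  have h9 : ((A.card : ℝ) * G) * G ≤ (12 * N) * G := by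
    calc ((A.card : ℝ) * G) * G = (A.card : ℝ) * G ^ 2 := by ring
      _ ≤ _ := h8
  exact le_of_mul_le_mul_right h9 (by linarith)

/-- the floor of a real number `≥ 2` -/
lemma floor_sq (x : ℝ) (hx : 2 ≤ x) : x ≤ ((⌊x⌋₊ : ℕ) : ℝ) ^ 2 := by
  have h1 : 2 ≤ ⌊x⌋₊ := Nat.le_floor (by exact_mod_cast hx)
  have h2 : x < (⌊x⌋₊ : ℝ) + 1 := Nat.lt_floor_add_one x
  have h3 : (2 : ℝ) ≤ (⌊x⌋₊ : ℝ) := by exact_mod_cast h1
  nlinarith

theorem sv2 (h : S_SG) : S_SV2 := by
  obtain ⟨C1, hC1, hSG⟩ := h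
  obtain ⟨M, hM0, hM⟩ := mert_int
  refine ⟨8 * C1, by linarith, ?_⟩
  intro C hC
  have hCpos : 8 ≤ C := by linarith
  refine ⟨12 * C1 * (Real.exp M * (2 * C)), ?_, ?_⟩
  · have h1 : 1 ≤ Real.exp M := Real.one_le_exp hM0
    have h2 : 1 ≤ 12 * C1 := by linarith
    have h3 : 1 ≤ 2 * C := by linarith
    exact one_le_mul_of_one_le_of_one_le h2 (one_le_mul_of_one_le_of_one_le h1 h3)
  intro k N y E I A hk hy hky hN hA hI hA2 hE
  have hkR : (1 : ℝ) ≤ k := by exact_mod_cast hk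
  have hyR : (2 : ℝ) ≤ y := by exact_mod_cast hy
  have hly : Real.log 2 ≤ Real.log y := Real.log_le_log (by norm_num) hyR
  have hl2 : (0.6931 : ℝ) < Real.log 2 := by have := Real.log_two_gt_d9; linarith
  have hCk : 8 ≤ C * k := by
    calc (8 : ℝ) = 8 * 1 := by ring
      _ ≤ C * k := mul_le_mul hCpos hkR (by norm_num) (by linarith)
  have hCk0 : 0 < C * k := by linarith
  have hlN : 8 * Real.log 2 ≤ Real.log N := by
    refine le_trans ?_ hN
    exact mul_le_mul hCk hly (by linarith) (by linarith)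
  have hlN0 : 0 < Real.log N := by linarith
  have hN0 : 0 < (N : ℝ) := by
    rcases Nat.eq_zero_or_pos N with h0 | h0
    · subst h0; simp at hlN0
    · exact_mod_cast h0
  have hN256 : 256 ≤ N := by
    have h1 : Real.log 256 ≤ Real.log N := by
      have : Real.log 256 = 8 * Real.log 2 := by
        rw [show (256 : ℝ) = 2 ^ 8 by norm_num, Real.log_pow]; norm_num
      rw [this]; exact hlN
    have h2 := (Real.log_le_log_iff (by norm_num) hN0).1 h1
    exact_mod_cast h2
  -- the level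
  set L := Real.log N / (C * k) with hL
  have hyL : Real.log y ≤ L := by
    rw [hL, le_div_iff₀ hCk0]
    linarith
  set w := ⌊Real.exp L⌋₊ with hw
  have hyexp : (y : ℝ) ≤ Real.exp L := by
    rw [← Real.exp_log (show (0 : ℝ) < y by linarith)]
    exact Real.exp_le_exp.2 hyL
  have hyw : y ≤ w := Nat.le_floor hyexp
  have hwexp : (w : ℝ) ≤ Real.exp L := Nat.floor_le (Real.exp_pos _).le
  have hw2 : (2 : ℝ) ≤ w := hyR.trans (by exact_mod_cast hyw)
  have hlwL : Real.log w ≤ L := by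
    have := Real.log_le_log (by linarith) hwexp
    rwa [Real.log_exp] at this
  have hL2 : L ≤ 2 * Real.log w := by
    have h1 := floor_sq (Real.exp L) (hyR.trans hyexp)
    rw [← hw] at h1
    have h2 := Real.log_le_log (Real.exp_pos L) h1
    rw [Real.log_exp, Real.log_pow] at h2
    exact_mod_cast h2
  have hlw0 : 0 < Real.log w := Real.log_pos (by linarith)
  have hLle : C * k * L = Real.log N := by
    rw [hL]; field_simp
  have hL0 : 0 < L := by rw [hL]; positivity
  have hwN : w ≤ N := by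
    have h1 : Real.log w ≤ Real.log N := by
      refine hlwL.trans ?_
      rw [← hLle]
      calc L = 1 * L := by ring
        _ ≤ C * k * L := mul_le_mul_of_nonneg_right (by linarith) hL0.le
    have h2 := (Real.log_le_log_iff (by linarith) hN0).1 h1
    exact_mod_cast h2
  -- Q
  set Q := Nat.sqrt N with hQ
  have hQN : Q ^ 2 ≤ N := Nat.sqrt_le' N
  have hQ16 : 16 ≤ Q := by
    rw [hQ, Nat.le_sqrt]; omega
  have hQ4 : N ≤ Q ^ 4 := by
    have h1 : N < (Q + 1) ^ 2 := Nat.lt_succ_sqrt' N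
    have h2 : Q + 1 ≤ Q ^ 2 := by nlinarith
    calc N ≤ (Q + 1) ^ 2 := h1.le
      _ ≤ (Q ^ 2) ^ 2 := Nat.pow_le_pow_left h2 2
      _ = Q ^ 4 := by ring
  have hlQ : Real.log N / 4 ≤ Real.log Q := by
    have h1 : Real.log N ≤ Real.log ((Q : ℝ) ^ 4) :=
      Real.log_le_log hN0 (by exact_mod_cast hQ4)
    rw [Real.log_pow] at h1
    push_cast at h1
    linarith
  have hSGc : C1 * k * Real.log w ≤ Real.log Q := by
    refine le_trans ?_ hlQ
    have h1 : C1 * k * Real.log w ≤ C1 * k * L :=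
      mul_le_mul_of_nonneg_left hlwL (by positivity)
    have h2 : 8 * C1 * (k * L) ≤ C * (k * L) :=
      mul_le_mul_of_nonneg_right hC (by positivity)
    have h3 : C * (k * L) = Real.log N := by rw [← hLle]; ring
    have h4 : 8 * C1 * (k * L) = 8 * (C1 * k * L) := by ring
    linarith
  -- the denominator
  set P := (Ioc y w).filter Nat.Prime with hP
  have hPm : ∀ q ∈ P, y < q ∧ q ≤ w ∧ q.Prime := by
    intro q hq
    rw [hP, Finset.mem_filter, Finset.mem_Ioc] at hq
    exact ⟨hq.1.1, hq.1.2, hq.2⟩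
  set om : ℕ → ℝ := fun l => if l.Prime ∧ y < l then ((I l).card : ℝ) else 0 with hom
  have h1 := hSG k y w Q om hk hy hky hyw hSGc (by
    intro l
    rw [hom]
    by_cases hl : l.Prime ∧ y < l
    · simp only [hl, and_self, if_true]
      exact ⟨by positivity, by exact_mod_cast (hI l hl.1 hl.2).2⟩
    · simp only [hl, if_false]
      exact ⟨le_rfl, by positivity⟩)
  have homq : ∀ q ∈ P, om q = ((I q).card : ℝ) := by
    intro q hq
    have h2 := hPm q hq
    simp only [hom, h2.2.2, h2.1, and_self, if_true]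
  have h2 : ∑ l ∈ P, om l / l = ∑ l ∈ P, ((I l).card : ℝ) / l :=
    Finset.sum_congr rfl (fun l hl => by rw [homq l hl])
  have h3 : ∑ s ∈ P.powerset.filter (fun s => ∏ l ∈ s, l ≤ Q), ∏ l ∈ s, om l / l =
      ∑ s ∈ P.powerset.filter (fun s => ∏ l ∈ s, l ≤ Q), ∏ l ∈ s, ((I l).card : ℝ) / l := by
    apply Finset.sum_congr rfl
    intro s hs
    rw [Finset.mem_filter, Finset.mem_powerset] at hs
    exact Finset.prod_congr rfl (fun l hl => by rw [homq l (hs.1 hl)])
  rw [← hP, h2, h3] at h1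
  have h4 := sieve N Q P I A (fun q hq => (hPm q hq).2.2)
    (fun q hq => (hI q (hPm q hq).2.2 (hPm q hq).1).1) (by omega) hQN hA (by
      intro n hn q hq
      have h5 := hPm q hq
      apply hA2 n hn q h5.2.2 h5.1
      rw [← hLle]
      apply mul_le_mul_of_nonneg_left _ hCk0.le
      refine le_trans (Real.log_le_log ?_ ?_) hlwL
      · exact_mod_cast h5.2.2.pos
      · exact_mod_cast h5.2.1)
  set G := ∑ s ∈ P.powerset.filter (fun s => ∏ l ∈ s, l ≤ Q), ∏ l ∈ s, ((I l).card : ℝ) / l with hG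
  set T0 := ∑ l ∈ P, ((I l).card : ℝ) / l with hT0
  -- comparison of the sums
  have h5 : k * ∑ l ∈ P, (1 : ℝ) / l - T0 ≤ E := by
    refine le_trans ?_ hE
    rw [hT0, Finset.mul_sum, ← Finset.sum_sub_distrib]
    have h6 : ∑ l ∈ P, ((k : ℝ) * (1 / l) - ((I l).card : ℝ) / l) =
        ∑ l ∈ P, ((k : ℝ) - (I l).card) / l := by
      apply Finset.sum_congr rfl
      intro l _
      ring
    rw [h6]
    apply Finset.sum_le_sum_of_subset_of_nonneg
    · intro q hq
      have h7 := hPm q hq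
      rw [Finset.mem_filter, Finset.mem_Ioc]
      exact ⟨⟨h7.1, h7.2.1.trans hwN⟩, h7.2.2⟩
    · intro l hl _
      rw [Finset.mem_filter, Finset.mem_Ioc] at hl
      have h8 : ((I l).card : ℝ) ≤ k := by exact_mod_cast (hI l hl.2 hl.1.1).2
      exact div_nonneg (by linarith) (by positivity)
  have h6 := hM y w hy hyw
  rw [← hP] at h6
  have hlly : 0 < Real.log y := by linarith
  -- A.card ≤ 12 C1 N exp (-T0)
  have h7 : (A.card : ℝ) * Real.exp T0 ≤ 12 * C1 * N := by
    calc (A.card : ℝ) * Real.exp T0 ≤ (A.card : ℝ) * (C1 * G) :=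
          mul_le_mul_of_nonneg_left h1 (by positivity)
      _ = C1 * ((A.card : ℝ) * G) := by ring
      _ ≤ C1 * (12 * N) := mul_le_mul_of_nonneg_left h4 (by linarith)
      _ = _ := by ring
  have h8 : (A.card : ℝ) ≤ 12 * C1 * N * Real.exp (-T0) := by
    calc (A.card : ℝ) = ((A.card : ℝ) * Real.exp T0) * Real.exp (-T0) := by
          rw [mul_assoc, ← Real.exp_add]; simp
      _ ≤ _ := mul_le_mul_of_nonneg_right h7 (Real.exp_pos _).le
  have h9 : -T0 ≤ E + k * (M + (Real.log (Real.log y) - Real.log (Real.log w))) := by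
    have h10 := mul_le_mul_of_nonneg_left h6 (show (0 : ℝ) ≤ k by linarith)
    linarith [h10, h5]
  have h10 : Real.exp (k * (M + (Real.log (Real.log y) - Real.log (Real.log w)))) =
      (Real.exp M * (Real.log y / Real.log w)) ^ k := by
    rw [Real.exp_nat_mul, Real.exp_add, Real.exp_sub, Real.exp_log hlly, Real.exp_log hlw0]
  have h11 : Real.exp M * (Real.log y / Real.log w) ≤
      (Real.exp M * (2 * C)) * (k * Real.log y / Real.log N) := by
    rw [mul_assoc]
    apply mul_le_mul_of_nonneg_left _ (Real.exp_pos _).le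
    have h12 : Real.log N ≤ C * k * (2 * Real.log w) := by
      rw [← hLle]
      exact mul_le_mul_of_nonneg_left hL2 hCk0.le
    rw [div_le_iff₀ hlw0]
    have h13 : 2 * C * (k * Real.log y / Real.log N) * Real.log w =
        Real.log y * (C * k * (2 * Real.log w) / Real.log N) := by ring
    rw [h13]
    have h14 : 1 ≤ C * k * (2 * Real.log w) / Real.log N := by
      rw [le_div_iff₀ hlN0]; linarith
    calc Real.log y = Real.log y * 1 := by ring
      _ ≤ _ := mul_le_mul_of_nonneg_left h14 hlly.le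
  have h12 : 12 * C1 ≤ (12 * C1) ^ k := by
    have : (1 : ℝ) ≤ 12 * C1 := by linarith
    calc 12 * C1 = (12 * C1) ^ 1 := by ring
      _ ≤ (12 * C1) ^ k := pow_le_pow_right₀ this hk
  have h13 : 0 ≤ Real.exp M * (Real.log y / Real.log w) := by positivity
  calc (A.card : ℝ) ≤ 12 * C1 * N * Real.exp (-T0) := h8
    _ ≤ 12 * C1 * N * Real.exp (E + k * (M + (Real.log (Real.log y) - Real.log (Real.log w)))) :=
        mul_le_mul_of_nonneg_left (Real.exp_le_exp.2 h9) (by positivity)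
    _ = 12 * C1 * (Real.exp M * (Real.log y / Real.log w)) ^ k * Real.exp E * N := by
        rw [Real.exp_add, h10]; ring
    _ ≤ (12 * C1) ^ k * ((Real.exp M * (2 * C)) * (k * Real.log y / Real.log N)) ^ k *
          Real.exp E * N := by
        apply mul_le_mul_of_nonneg_right _ hN0.le
        apply mul_le_mul_of_nonneg_right _ (Real.exp_pos _).le
        exact mul_le_mul h12 (pow_le_pow_left₀ h13 h11 k) (pow_nonneg h13 k) (by positivity)
    _ = (12 * C1 * (Real.exp M * (2 * C))) ^ k * Real.exp E *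
          (k * Real.log y / Real.log N) ^ k * N := by
        rw [mul_pow, mul_pow (12 * C1) (Real.exp M * (2 * C))]; ring

end Pool.Agent.N136.OW
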